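import Pool.Agent.Helper35.HS3.GoalsB

/-!
# Project HS3, packet CACC: the gradients converge in the blow-down
-/

namespace Pool.Agent.Helper16.HS3.CACC

open Pool.Agent.Helper35.HS3
open MeasureTheory Set Filter Topology Metric
open scoped ContDiff

/-- The integrand of the Caccioppoli identity. -/
noncomputable def TT (χ g : E → ℝ) (x : E) : ℝ :=
  χ x ^ 2 * gsq g x + χ x ^ 2 * (g x * lap g x) + 2 * (χ x * g x * gdot χ g x)

/-- The vector field of the Caccioppoli identity. -/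
noncomputable def VV (χ g : E → ℝ) (j : Fin 3) (y : E) : ℝ := χ y ^ 2 * (g y * pd j g y)

theorem contDiff_VV {χ g : E → ℝ} (hχ : ContDiff ℝ 2 χ) (hg : ContDiff ℝ 2 g) (j : Fin 3) :
    ContDiff ℝ 1 (VV χ g j) := by
  have h1 : ContDiff ℝ 1 χ := hχ.of_le (by norm_num)
  have h2 : ContDiff ℝ 1 g := hg.of_le (by norm_num)
  exact (h1.pow 2).mul (h2.mul (contDiff_one_pd hg))

theorem compact_VV {χ g : E → ℝ} (hc : HasCompactSupport χ) (j : Fin 3) :
    HasCompactSupport (VV χ g j) := by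
  have h1 : HasCompactSupport (fun y => χ y ^ 2) := hc.comp_left (g := fun t : ℝ => t ^ 2) (by norm_num)
  exact h1.mul_right

theorem pd_VV {χ g : E → ℝ} (hχ : ContDiff ℝ 2 χ) (hg : ContDiff ℝ 2 g) (j : Fin 3) (x : E) :
    pd j (VV χ g j) x = χ x ^ 2 * (pd j g x * pd j g x) + χ x ^ 2 * (g x * pd j (pd j g) x) +
      2 * (χ x * g x * (pd j χ x * pd j g x)) := by
  have d1 : DifferentiableAt ℝ χ x := diff_of_two hχ x
  have d2 : DifferentiableAt ℝ g x := diff_of_two hg x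
  have d3 : DifferentiableAt ℝ (pd j g) x := diff_pd hg j x
  have e1 : pd j (VV χ g j) x = χ x ^ 2 * pd j (fun y => g y * pd j g y) x +
      (g x * pd j g x) * pd j (fun y => χ y ^ 2) x := pd_mul (d1.pow 2) (d2.mul d3)
  rw [e1, pd_mul d2 d3, pd_pow 2 d1]
  push_cast
  ring

theorem TT_eq {χ g : E → ℝ} (hχ : ContDiff ℝ 2 χ) (hg : ContDiff ℝ 2 g) (x : E) :
    TT χ g x = ∑ j, pd j (VV χ g j) x := by
  simp only [pd_VV hχ hg, Finset.sum_add_distrib, ← Finset.mul_sum]
  unfold TT gsq lap gdot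
  congr 2
  congr 1
  exact Finset.sum_congr rfl fun i _ => by ring

theorem integrable_pd_VV {χ g : E → ℝ} (hχ : ContDiff ℝ 2 χ) (hc : HasCompactSupport χ)
    (hg : ContDiff ℝ 2 g) (j : Fin 3) : Integrable (pd j (VV χ g j)) :=
  (continuous_pd (contDiff_VV hχ hg j)).integrable_of_hasCompactSupport
    (hasCompactSupport_pd j (compact_VV hc j))

theorem integrable_cs {χ h : E → ℝ} (hχ : Continuous χ) (hc : HasCompactSupport χ)
    (hh : Continuous h) : Integrable fun x => χ x ^ 2 * h x := by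
  have h1 : HasCompactSupport (fun y => χ y ^ 2) := hc.comp_left (g := fun t : ℝ => t ^ 2) (by norm_num)
  exact ((hχ.pow 2).mul hh).integrable_of_hasCompactSupport h1.mul_right

theorem integral_TT (hpb : HPB_stmt) {χ g : E → ℝ} (hχ : ContDiff ℝ 2 χ)
    (hc : HasCompactSupport χ) (hg : ContDiff ℝ 2 g) {τ : ℝ} (hτ : τ = 1 ∨ τ = -1) :
    ∫ x in Hs τ, TT χ g x = ∫ x in Hs τ, pd 0 (VV χ g 0) x := by
  have e : (fun x => TT χ g x) = fun x => ∑ j, pd j (VV χ g j) x := funext (TT_eq hχ hg)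
  rw [e, integral_finsetSum _ fun j _ => (integrable_pd_VV hχ hc hg j).integrableOn,
    Fin.sum_univ_three,
    hpb.1 τ 1 _ hτ (contDiff_VV hχ hg 1) (compact_VV hc 1) (Or.inl (by decide)),
    hpb.1 τ 2 _ hτ (contDiff_VV hχ hg 2) (compact_VV hc 2) (Or.inl (by decide))]
  ring

theorem pointwise (χ g : E → ℝ) (x : E) :
    χ x ^ 2 * gsq g x ≤ 2 * TT χ g x - 2 * (χ x ^ 2 * (g x * lap g x)) + 4 * (g x ^ 2 * gsq χ x) := by
  have h : 0 ≤ ∑ i, (χ x * pd i g x + 2 * g x * pd i χ x) ^ 2 :=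
    Finset.sum_nonneg fun _ _ => sq_nonneg _
  unfold TT gsq gdot
  rw [Fin.sum_univ_three] at h
  simp only [Fin.sum_univ_three]
  nlinarith [h]

/-- Comparison of integrals over a half-space with integrals over half-balls. -/
theorem compare {h h' : E → ℝ} {R τ : ℝ} (hi : Continuous h) (hi' : Continuous h')
    (h0 : ∀ x, 2 * R ≤ ‖x‖ → h x = 0) (hR : 0 < R)
    (hle : ∀ x ∈ Hs τ, h x ≤ h' x) :
    ∫ x in Hs τ, h x ≤ ∫ x in Hs τ ∩ ball (0 : E) (3 * R), h' x := by
  have e : ∫ x in Hs τ, h x = ∫ x in Hs τ ∩ ball (0 : E) (3 * R), h x := by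
    refine setIntegral_eq_of_subset_of_forall_sdiff_eq_zero (measurableSet_Hs τ)
      inter_subset_left ?_
    intro x hx
    refine h0 x ?_
    by_contra hlt
    push Not at hlt
    refine hx.2 ⟨hx.1, ?_⟩
    rw [mem_ball, dist_zero_right]
    linarith
  rw [e]
  refine setIntegral_mono_on (integrableOn_Hs_ball hi τ _) (integrableOn_Hs_ball hi' τ _)
    ((measurableSet_Hs τ).inter measurableSet_ball) fun x hx => hle x hx.1

/-- The local part of the estimate. -/
theorem half (hpb : HPB_stmt) {χ g : E → ℝ} {R τ : ℝ} (hχ : ContDiff ℝ 2 χ)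
    (hc : HasCompactSupport χ) (h1 : ∀ x, ‖x‖ ≤ R → χ x = 1) (hg : ContDiff ℝ 2 g)
    (hτ : τ = 1 ∨ τ = -1) :
    ∫ x in Hs τ ∩ ball (0 : E) R, gsq g x ≤ 2 * (∫ x in Hs τ, pd 0 (VV χ g 0) x) +
      2 * (∫ x in Hs τ, χ x ^ 2 * (g x * (- lap g x))) +
      4 * ∫ x in Hs τ, g x ^ 2 * gsq χ x := by
  have hχ1 : ContDiff ℝ 1 χ := hχ.of_le (by norm_num)
  have hg1 : ContDiff ℝ 1 g := hg.of_le (by norm_num)
  have i1 : Integrable fun x => χ x ^ 2 * gsq g x :=
    integrable_cs hχ.continuous hc (continuous_gsq hg1)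
  have i2 : Integrable fun x => χ x ^ 2 * (g x * (- lap g x)) :=
    integrable_cs hχ.continuous hc (hg.continuous.mul (continuous_lap hg).neg)
  have i3 : Integrable (TT χ g) := by
    have e : (TT χ g) = fun x => ∑ j, pd j (VV χ g j) x := funext (TT_eq hχ hg)
    rw [e]
    exact integrable_finsetSum _ fun j _ => integrable_pd_VV hχ hc hg j
  have i4 : Integrable fun x => g x ^ 2 * gsq χ x := by
    have hs : HasCompactSupport (gsq χ) := by
      have : gsq χ = fun x => pd 0 χ x ^ 2 + (pd 1 χ x ^ 2 + pd 2 χ x ^ 2) := by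
        funext x; unfold gsq; rw [Fin.sum_univ_three]; ring
      rw [this]
      have k : ∀ i, HasCompactSupport fun x => pd i χ x ^ 2 := fun i =>
        (hasCompactSupport_pd i hc).comp_left (g := fun t : ℝ => t ^ 2) (by norm_num)
      exact (k 0).add ((k 1).add (k 2))
    exact ((hg.continuous.pow 2).mul (continuous_gsq hχ1)).integrable_of_hasCompactSupport
      hs.mul_left
  have s1 : ∫ x in Hs τ ∩ ball (0 : E) R, gsq g x ≤ ∫ x in Hs τ, χ x ^ 2 * gsq g x := by
    have e : ∫ x in Hs τ ∩ ball (0 : E) R, gsq g x =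
        ∫ x in Hs τ ∩ ball (0 : E) R, χ x ^ 2 * gsq g x := by
      refine setIntegral_congr_fun ((measurableSet_Hs τ).inter measurableSet_ball) fun x hx => ?_
      have : ‖x‖ < R := by simpa using hx.2
      rw [h1 x this.le]; ring
    rw [e]
    refine setIntegral_mono_set i1.integrableOn
      (Eventually.of_forall fun x => mul_nonneg (sq_nonneg _) (gsq_nonneg g x)) ?_
    exact (inter_subset_left : Hs τ ∩ ball (0 : E) R ⊆ Hs τ).eventuallyLE
  have s2 : ∫ x in Hs τ, χ x ^ 2 * gsq g x ≤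
      ∫ x in Hs τ, (2 * TT χ g x + 2 * (χ x ^ 2 * (g x * (- lap g x))) +
        4 * (g x ^ 2 * gsq χ x)) := by
    refine setIntegral_mono i1.integrableOn
      (((i3.const_mul 2).add (i2.const_mul 2)).add (i4.const_mul 4)).integrableOn fun x => ?_
    have := pointwise χ g x
    simp only
    linarith
  have s3 : ∫ x in Hs τ, (2 * TT χ g x + 2 * (χ x ^ 2 * (g x * (- lap g x))) +
        4 * (g x ^ 2 * gsq χ x)) =
      2 * (∫ x in Hs τ, TT χ g x) + 2 * (∫ x in Hs τ, χ x ^ 2 * (g x * (- lap g x))) +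
        4 * ∫ x in Hs τ, g x ^ 2 * gsq χ x := by
    have a1 := (i3.const_mul 2).integrableOn (s := Hs τ)
    have a2 := (i2.const_mul 2).integrableOn (s := Hs τ)
    have a3 := (i4.const_mul 4).integrableOn (s := Hs τ)
    have b1 : ∫ x in Hs τ, (2 * TT χ g x + 2 * (χ x ^ 2 * (g x * (- lap g x))) +
        4 * (g x ^ 2 * gsq χ x)) = (∫ x in Hs τ, (2 * TT χ g x +
          2 * (χ x ^ 2 * (g x * (- lap g x))))) + ∫ x in Hs τ, 4 * (g x ^ 2 * gsq χ x) :=
      integral_add (a1.add a2) a3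
    have b2 : ∫ x in Hs τ, (2 * TT χ g x + 2 * (χ x ^ 2 * (g x * (- lap g x)))) =
        (∫ x in Hs τ, 2 * TT χ g x) + ∫ x in Hs τ, 2 * (χ x ^ 2 * (g x * (- lap g x))) :=
      integral_add a1 a2
    rw [b1, b2, integral_const_mul, integral_const_mul, integral_const_mul]
  rw [integral_TT hpb hχ hc hg hτ] at s3
  linarith

theorem gsq_bound {χ : E → ℝ} {c : ℝ} (x : E) (h : ∀ i, |pd i χ x| ≤ c) :
    gsq χ x ≤ 3 * c ^ 2 := by
  have k : ∀ i, pd i χ x ^ 2 ≤ c ^ 2 := fun i => by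
    rw [← sq_abs (pd i χ x)]
    exact pow_le_pow_left₀ (abs_nonneg _) (h i) 2
  unfold gsq
  rw [Fin.sum_univ_three]
  linarith [k 0, k 1, k 2]

/-- The bound for the term with the gradient of the cut-off. -/
theorem cutterm {χ g : E → ℝ} {R τ c M : ℝ} (hR : 0 < R) (hχ : ContDiff ℝ 2 χ)
    (hg : Continuous g) (h2 : ∀ x, 2 * R ≤ ‖x‖ → gsq χ x = 0)
    (hb : ∀ x i, |pd i χ x| ≤ c) (h0 : ∀ x ∈ Hs τ, 0 ≤ g x) (hMn : 0 ≤ M)
    (hM : ∀ x, ‖x‖ ≤ 2 * R → x ∈ Hs τ → g x ≤ M) :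
    ∫ x in Hs τ, g x ^ 2 * gsq χ x ≤
      (3 * c ^ 2 * M) * ∫ x in Hs τ ∩ ball (0 : E) (3 * R), g x := by
  have hχ1 : ContDiff ℝ 1 χ := hχ.of_le (by norm_num)
  rw [← integral_const_mul]
  refine compare ((hg.pow 2).mul (continuous_gsq hχ1)) (continuous_const.mul hg)
    (fun x hx => by rw [h2 x hx]; ring) hR fun x hx => ?_
  have hgx := h0 x hx
  by_cases hx3 : ‖x‖ ≤ 2 * R
  · have k1 := gsq_bound x (hb x)
    have k2 := hM x hx3 hx
    have k3 := gsq_nonneg χ x
    calc g x ^ 2 * gsq χ x = g x * (g x * gsq χ x) := by ring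
      _ ≤ g x * (M * (3 * c ^ 2)) := by
          refine mul_le_mul_of_nonneg_left ?_ hgx
          exact mul_le_mul k2 k1 k3 hMn
      _ = 3 * c ^ 2 * M * g x := by ring
  · push Not at hx3
    rw [h2 x hx3.le]
    have : 0 ≤ 3 * c ^ 2 * M * g x := by positivity
    simpa using this

/-! ## The functions `γ x₀ - u` -/

theorem contDiff_w {u : E → ℝ} (hu : ContDiff ℝ 2 u) (γ : ℝ) :
    ContDiff ℝ 2 (fun y : E => γ * y 0 - u y) :=
  (contDiff_const.mul (contDiff_coord 0)).sub hu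

theorem pd_w {u : E → ℝ} (hu : ContDiff ℝ 2 u) (γ : ℝ) (i : Fin 3) (x : E) :
    pd i (fun y : E => γ * y 0 - u y) x = γ * (if 0 = i then 1 else 0) - pd i u x := by
  have d0 : DifferentiableAt ℝ (fun y : E => y 0) x := diff_of_two (contDiff_coord 0) x
  rw [pd_sub (d0.const_mul γ) (diff_of_two hu x), pd_const_mul γ d0, pd_coord]

theorem gsq_w {u : E → ℝ} (hu : ContDiff ℝ 2 u) (γ : ℝ) (x : E) :
    gsq (fun y : E => γ * y 0 - u y) x = gsub γ u x := by
  unfold gsq gsub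
  simp only [pd_w hu]
  rw [Fin.sum_univ_three]
  simp
  ring

theorem lap_w {u : E → ℝ} (hu : ContDiff ℝ 2 u) (γ : ℝ) (x : E) :
    - lap (fun y : E => γ * y 0 - u y) x = lap u x := by
  have d0 : ContDiffAt ℝ 2 (fun y : E => γ * y 0) x :=
    (contDiff_const.mul (contDiff_coord 0)).contDiffAt
  have e : lap (fun y : E => γ * y 0) x = 0 := by
    rw [lap_const_mul γ (contDiff_coord 0).contDiffAt]
    have : lap (fun y : E => y 0) x = 0 := by
      unfold lap
      refine Finset.sum_eq_zero fun i _ => ?_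
      have : pd i (fun y : E => y 0) = fun _ => (if 0 = i then 1 else 0 : ℝ) :=
        funext fun y => pd_coord i 0 y
      rw [this, pd_const]
    rw [this]; ring
  rw [lap_sub d0 hu.contDiffAt, e]
  ring

/-- The term with `f(u)`. -/
theorem fterm {f : ℝ → ℝ} {u χ : E → ℝ} {a A K γ R τ μ : ℝ} (hN : Nl f a A K)
    (hu : ContDiff ℝ 2 u) (heq : ∀ x, lap u x = f (u x)) (hR : 0 < R) (hχ : Continuous χ)
    (h01 : ∀ x, 0 ≤ χ x ∧ χ x ≤ 1) (h2 : ∀ x, 2 * R ≤ ‖x‖ → χ x = 0)
    (h0 : ∀ x ∈ Hs τ, 0 ≤ γ * x 0 - u x) (hμ : ∀ x ∈ Hs τ, γ * x 0 ≤ μ * x 0) :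
    ∫ x in Hs τ, χ x ^ 2 * ((γ * x 0 - u x) * (- lap (fun y : E => γ * y 0 - u y) x)) ≤
      μ * (∫ x in Hs τ ∩ ball (0 : E) (3 * R), x 0 * f (u x)) +
        A * ∫ x in ball (0 : E) (3 * R), f (u x) := by
  have cf : Continuous fun x => f (u x) := hN.cont.comp hu.continuous
  have c0 : Continuous fun x : E => x 0 := (contDiff_coord 0 (n := 0)).continuous
  have cxf : Continuous fun x : E => x 0 * f (u x) := c0.mul cf
  have s1 : ∫ x in Hs τ, χ x ^ 2 * ((γ * x 0 - u x) * (- lap (fun y : E => γ * y 0 - u y) x)) ≤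
      ∫ x in Hs τ ∩ ball (0 : E) (3 * R), (μ * (x 0 * f (u x)) + A * f (u x)) := by
    refine compare ?_ ((continuous_const.mul cxf).add (continuous_const.mul cf))
      (fun x hx => by rw [h2 x hx]; ring) hR fun x hx => ?_
    · exact (hχ.pow 2).mul ((contDiff_w hu γ).continuous.mul (continuous_lap (contDiff_w hu γ)).neg)
    · rw [lap_w hu, heq x]
      have g0 := h0 x hx
      have f0 := hN.nonneg (u x)
      have k1 : χ x ^ 2 ≤ 1 := by
        have := pow_le_pow_left₀ (h01 x).1 (h01 x).2 2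
        simpa using this
      have k2 : χ x ^ 2 * ((γ * x 0 - u x) * f (u x)) ≤ (γ * x 0 - u x) * f (u x) :=
        mul_le_of_le_one_left (mul_nonneg g0 f0) k1
      refine k2.trans ?_
      by_cases hf : f (u x) = 0
      · rw [hf]; simp
      · have k3 := (_root_.abs_le.1 (hN.abs_le hf)).1
        have k4 := hμ x hx
        calc (γ * x 0 - u x) * f (u x) ≤ (μ * x 0 + A) * f (u x) :=
              mul_le_mul_of_nonneg_right (by linarith) f0
          _ = μ * (x 0 * f (u x)) + A * f (u x) := by ring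
  have i1 := (integrableOn_Hs_ball (φ := fun x => μ * (x 0 * f (u x)))
    (continuous_const.mul cxf) τ (3 * R))
  have i2 := (integrableOn_Hs_ball (φ := fun x => A * f (u x))
    (continuous_const.mul cf) τ (3 * R))
  have s2 : ∫ x in Hs τ ∩ ball (0 : E) (3 * R), (μ * (x 0 * f (u x)) + A * f (u x)) =
      (∫ x in Hs τ ∩ ball (0 : E) (3 * R), μ * (x 0 * f (u x))) +
        ∫ x in Hs τ ∩ ball (0 : E) (3 * R), A * f (u x) := integral_add i1 i2
  rw [integral_const_mul, integral_const_mul] at s2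
  have s3 : ∫ x in Hs τ ∩ ball (0 : E) (3 * R), f (u x) ≤ ∫ x in ball (0 : E) (3 * R), f (u x) := by
    refine setIntegral_mono_set (integrableOn_ball cf 0 _)
      (Eventually.of_forall fun x => hN.nonneg (u x)) ?_
    exact (inter_subset_right : Hs τ ∩ ball (0 : E) (3 * R) ⊆ ball 0 (3 * R)).eventuallyLE
  have s4 := mul_le_mul_of_nonneg_left s3 hN.A_pos.le
  linarith

theorem proof : CUT_stmt → HPB_stmt → FLX_stmt → CACC_stmt := by
  intro hcut hpb hflx f a A K u α β hN hS hBD ε hε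
  obtain ⟨C₁, hC₁, hcut⟩ := hcut
  obtain ⟨⟨D, hD, hD1⟩, hfl⟩ := hflx f a A K u α β hN hS hBD
  obtain ⟨C, hC, hCb⟩ := hBD.bdd
  have hβ : 0 ≤ β := hBD.β_nonneg
  have hα : 0 ≤ α := hβ.trans hBD.le
  have hA := hN.A_pos
  set M0 : ℝ := 2 * α + 3 * C with hM0
  have hM0p : 0 < M0 := by positivity
  set B : ℝ := 54 * α + 1944 * C₁ ^ 2 * M0 + 1 with hB
  have hBp : 0 < B := by positivity
  set e' : ℝ := ε / (2 * B) with he'
  have he'p : 0 < e' := by positivity
  obtain ⟨R1, hR1⟩ := hfl e' he'p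
  obtain ⟨R2, hR2⟩ := hBD.limr e' he'p
  obtain ⟨R3, hR3⟩ := hBD.liml e' he'p
  refine ⟨max 1 (max (72 * A * D / ε) (max R1 (max R2 R3))), fun R hR => ?_⟩
  simp only [max_le_iff] at hR
  obtain ⟨hRone, hRA, hRR1, hRR2, hRR3⟩ := hR
  have hRp : 0 < R := by linarith
  obtain ⟨χ, hχ, hc, h01, h1, h2, hb, -⟩ := hcut R hRp
  have hu := hS.smooth
  have hw := contDiff_w hu α
  have hv := contDiff_w hu β
  -- the gradient of the cut-off vanishes outside
  have hgz : ∀ x, 2 * R ≤ ‖x‖ → gsq χ x = 0 := by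
    have hopen : ∀ x : E, 2 * R < ‖x‖ → gsq χ x = 0 := by
      intro x hx
      have hev : χ =ᶠ[𝓝 x] fun _ => (0 : ℝ) := by
        have : {y : E | 2 * R < ‖y‖} ∈ 𝓝 x :=
          (isOpen_lt continuous_const continuous_norm).mem_nhds hx
        filter_upwards [this] with y hy using h2 y (le_of_lt hy)
      unfold gsq
      refine Finset.sum_eq_zero fun i _ => ?_
      rw [pd_congr hev, pd_const]; norm_num
    intro x hx
    rcases hx.lt_or_eq with h | h
    · exact hopen x h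
    · -- continuity
      have hcont : Continuous (gsq χ) := continuous_gsq (hχ.of_le (by norm_num))
      have hlim : Tendsto (fun n : ℕ => gsq χ ((1 + 1 / ((n : ℝ) + 1)) • x)) atTop
          (𝓝 (gsq χ ((1 + 0 : ℝ) • x))) := by
        refine (hcont.tendsto _).comp ?_
        exact ((tendsto_const_nhds.add tendsto_one_div_add_atTop_nhds_zero_nat).smul
          tendsto_const_nhds)
      rw [add_zero, one_smul] at hlim
      have hz : (fun n : ℕ => gsq χ ((1 + 1 / ((n : ℝ) + 1)) • x)) = fun _ => 0 := by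
        funext n
        refine hopen _ ?_
        have hp : 0 < 1 / ((n : ℝ) + 1) := by positivity
        rw [norm_smul, Real.norm_eq_abs, abs_of_pos (by positivity), ← h]
        nlinarith
      rw [hz] at hlim
      exact (tendsto_nhds_unique hlim tendsto_const_nhds)
  -- signs
  have hw0 : ∀ x ∈ Hs 1, 0 ≤ α * x 0 - u x := by
    intro x hx
    have hx' : 0 < 1 * x 0 := hx
    have := hBD.right x (by linarith)
    linarith
  have hv0 : ∀ x ∈ Hs (-1), 0 ≤ β * x 0 - u x := by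
    intro x hx
    have hx' : 0 < -1 * x 0 := hx
    have := hBD.left x (by linarith)
    linarith
  -- sizes
  have hub : ∀ x : E, ‖x‖ ≤ 2 * R → - u x ≤ 3 * C * R := by
    intro x hx
    have k1 := (_root_.abs_le.1 (hCb x)).1
    have k2 : C * (1 + ‖x‖) ≤ C * (3 * R) := mul_le_mul_of_nonneg_left (by linarith) hC.le
    linarith
  have hwM : ∀ x, ‖x‖ ≤ 2 * R → x ∈ Hs 1 → α * x 0 - u x ≤ M0 * R := by
    intro x hx _
    have k1 := hub x hx
    have k2 : x 0 ≤ 2 * R := (le_abs_self _).trans ((abs_coord_le x 0).trans hx)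
    have k3 := mul_le_mul_of_nonneg_left k2 hα
    rw [hM0]; linarith
  have hvM : ∀ x, ‖x‖ ≤ 2 * R → x ∈ Hs (-1) → β * x 0 - u x ≤ M0 * R := by
    intro x hx hx2
    have k1 := hub x hx
    have hx' : 0 < -1 * x 0 := hx2
    have k3 : β * x 0 ≤ 0 := mul_nonpos_of_nonneg_of_nonpos hβ (by linarith)
    have k4 : 0 ≤ α * R := by positivity
    rw [hM0]; linarith
  -- the two halves
  have H1 := half hpb hχ hc h1 hw (τ := 1) (Or.inl rfl)
  have H2 := half hpb hχ hc h1 hv (τ := -1) (Or.inr rfl)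
  have e1 : (fun x => gsq (fun y : E => α * y 0 - u y) x) = gsub α u := funext (gsq_w hu α)
  have e2 : (fun x => gsq (fun y : E => β * y 0 - u y) x) = gsub β u := funext (gsq_w hu β)
  rw [e1] at H1
  rw [e2] at H2
  -- the flux through the plane
  have H3 : (∫ x in Hs 1, pd 0 (VV χ (fun y : E => α * y 0 - u y) 0) x) +
      (∫ x in Hs (-1), pd 0 (VV χ (fun y : E => β * y 0 - u y) 0) x) ≤ 0 := by
    refine hpb.2 _ _ (contDiff_VV hχ hw 0) (compact_VV hc 0) (contDiff_VV hχ hv 0)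
      (compact_VV hc 0) fun x hx => ?_
    unfold VV
    rw [pd_w hu, pd_w hu]
    simp only [hx, mul_zero, zero_sub, if_true, mul_one]
    have k1 : 0 ≤ - u x := by linarith [hS.neg x hx.le]
    have k2 := hBD.le
    refine mul_le_mul_of_nonneg_left ?_ (sq_nonneg _)
    exact mul_le_mul_of_nonneg_left (by linarith) k1
  -- the terms with f
  have F1 := fterm (χ := χ) hN hu hS.eq hRp hχ.continuous h01 h2 hw0 (μ := α) fun x _ => le_rfl
  have F2 := fterm (χ := χ) hN hu hS.eq hRp hχ.continuous h01 h2 hv0 (μ := 0) fun x hx => by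
    have hx' : 0 < -1 * x 0 := hx
    rw [zero_mul]
    exact mul_nonpos_of_nonneg_of_nonpos hβ (by linarith)
  -- the terms with the cut-off
  have G1 := cutterm hRp hχ hw.continuous hgz hb hw0 (by positivity : 0 ≤ M0 * R) hwM
  have G2 := cutterm hRp hχ hv.continuous hgz hb hv0 (by positivity : 0 ≤ M0 * R) hvM
  have L1 := hR1 (3 * R) (by linarith)
  have L2 := hR2 (3 * R) (by linarith)
  have L3 := hR3 (3 * R) (by linarith)
  have L4 := hD1 (3 * R) (by linarith)
  have hcc : 3 * (C₁ / R) ^ 2 * (M0 * R) = 3 * C₁ ^ 2 * M0 / R := by field_simp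
  rw [hcc] at G1 G2
  have hcp : 0 ≤ 3 * C₁ ^ 2 * M0 / R := by positivity
  have G1' := G1.trans (mul_le_mul_of_nonneg_left L2 hcp)
  have G2' := G2.trans (mul_le_mul_of_nonneg_left L3 hcp)
  have hval : 3 * C₁ ^ 2 * M0 / R * (e' * (3 * R) ^ 4) = 243 * C₁ ^ 2 * M0 * e' * R ^ 3 := by
    field_simp; ring
  rw [hval] at G1' G2'
  have F1' := mul_le_mul_of_nonneg_left L1 hα
  have F3 := mul_le_mul_of_nonneg_left L4 hA.le
  have hlast : 36 * A * D * R ^ 2 ≤ ε / 2 * R ^ 3 := by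
    rw [div_le_iff₀ hε] at hRA
    have : 72 * A * D * R ^ 2 ≤ (R * ε) * R ^ 2 := mul_le_mul_of_nonneg_right hRA (by positivity)
    nlinarith
  have hmain : (54 * α + 1944 * C₁ ^ 2 * M0) * e' ≤ ε / 2 := by
    have k1 : B * e' = ε / 2 := by rw [he']; field_simp
    have k2 : (54 * α + 1944 * C₁ ^ 2 * M0) * e' ≤ B * e' :=
      mul_le_mul_of_nonneg_right (by rw [hB]; linarith) he'p.le
    linarith
  have hmain2 := mul_le_mul_of_nonneg_right hmain (by positivity : 0 ≤ R ^ 3)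
  nlinarith [H1, H2, H3, F1, F2, F1', F3, G1', G2', hlast, hmain2]

end Pool.Agent.Helper16.HS3.CACC
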